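import Pool.Agent.Y320.ST.Stm4

/-!
# Chains in the boundary of a hyperbolic group inside a shadow (`S_LINK`)
-/

set_option autoImplicit false
open Filter Topology

namespace Pool.Agent.Z932.ST
open Pool.Agent.Y320.CM Pool.Agent.Y320.ST

section
variable {G : Type} [Group G] {d : G → G → ℝ} {δ : ℝ}

theorem gp_left (hyp : HypD G d δ) (h w x y : G) :
    gp d (h * w) (h * x) (h * y) = gp d w x y := by
  unfold gp
  rw [hyp.left, hyp.left, hyp.left]

theorem gp_add (hyp : HypD G d δ) (v x : G) : gp d 1 x v + gp d v x 1 = d 1 v := by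
  unfold gp
  rw [hyp.symm v x, hyp.symm v 1, hyp.symm x 1]
  ring

theorem gp_le (hyp : HypD G d δ) (v x : G) : gp d 1 x v ≤ d 1 v := by
  have h1 := gp_add hyp v x
  have h2 := gp_nonneg v x 1 hyp
  linarith

/-- close points of the boundary have representatives which are near -/
theorem near_of_dist (hyp : HypD G d δ) {φ : (ℕ → G) → Sph} (hφ : Bd d φ) (L : ℝ) :
    ∃ η : ℝ, 0 < η ∧ ∀ x y : ℕ → G, CI d x → CI d y → dist (φ x) (φ y) < η → Near d L x y := by
  by_contra hcon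
  push Not at hcon
  have h : ∀ n : ℕ, ∃ x y : ℕ → G, CI d x ∧ CI d y ∧ dist (φ x) (φ y) < 1 / ((n : ℝ) + 1) ∧
      ¬ Near d L x y := fun n => hcon _ (by positivity)
  choose X Y hX hY hd hN using h
  obtain ⟨p, -, s, hs, hp⟩ := isCompact_univ.tendsto_subseq (x := fun n => φ (Y n))
    (fun n => trivial)
  obtain ⟨y, hy, rfl⟩ := hφ.surj p
  have t1 := (hφ.top (fun n => Y (s n)) y (fun n => hY _) hy).1 hp
  have t0 : Tendsto (fun n => dist (φ (X n)) (φ (Y n))) atTop (𝓝 0) :=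
    squeeze_zero (fun n => dist_nonneg) (fun n => (hd n).le)
      tendsto_one_div_add_atTop_nhds_zero_nat
  have t2 : Tendsto (fun n => φ (X (s n))) atTop (𝓝 (φ y)) := by
    rw [tendsto_iff_dist_tendsto_zero]
    have h1 := (t0.comp hs.tendsto_atTop).add (tendsto_iff_dist_tendsto_zero.1 hp)
    rw [add_zero] at h1
    exact squeeze_zero (fun n => dist_nonneg) (fun n => dist_triangle _ _ _) h1
  have t3 := (hφ.top (fun n => X (s n)) y (fun n => hX _) hy).1 t2
  obtain ⟨n, h1, h2⟩ := ((t1 (L + δ)).and (t3 (L + δ))).exists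
  apply hN (s n)
  obtain ⟨M1, h1⟩ := h1
  obtain ⟨M2, h2⟩ := h2
  refine ⟨max M1 M2, fun i j hi hj => ?_⟩
  have a1 := h2 i (max M1 M2) (le_trans (le_max_right _ _) hi) (le_max_right _ _)
  have a2 := h1 j (max M1 M2) (le_trans (le_max_left _ _) hj) (le_max_left _ _)
  have b := hyp.hyp 1 (X (s n) i) (y (max M1 M2)) (Y (s n) j)
  rw [gp_symm 1 (y (max M1 M2)) (Y (s n) j) hyp] at b
  have hm := le_min a1 a2
  linarith

theorem three : ∃ a b c : Sph, 1 ≤ dist a b ∧ 1 ≤ dist a c ∧ 1 ≤ dist b c := by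
  have hs : ∀ i : Fin 3, EuclideanSpace.single i (1 : ℝ) ∈
      Metric.sphere (0 : EuclideanSpace ℝ (Fin 3)) 1 := by
    intro i
    simp
  have hd : ∀ i j : Fin 3, i ≠ j →
      1 ≤ dist (⟨EuclideanSpace.single i (1 : ℝ), hs i⟩ : Sph)
        ⟨EuclideanSpace.single j (1 : ℝ), hs j⟩ := by
    intro i j hij
    rw [Subtype.dist_eq, dist_eq_norm]
    have h1 := PiLp.norm_apply_le (EuclideanSpace.single i (1 : ℝ) -
      EuclideanSpace.single j (1 : ℝ)) i
    refine le_trans (le_of_eq ?_) h1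
    simp [hij]
  exact ⟨_, _, _, hd 0 1 (by decide), hd 0 2 (by decide), hd 1 2 (by decide)⟩

theorem far (p q : Sph) : ∃ r : Sph, 1 / 10 ≤ dist p r ∧ 1 / 10 ≤ dist q r := by
  obtain ⟨a, b, c, hab, hac, hbc⟩ := three
  by_contra hcon
  push Not at hcon
  have ha := hcon a
  have hb := hcon b
  have hc := hcon c
  have key : ∀ z x y : Sph, 1 ≤ dist x y → 1 / 10 ≤ dist z x ∨ 1 / 10 ≤ dist z y := by
    intro z x y hxy
    by_contra h
    push Not at h
    have h1 := dist_triangle x z y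
    rw [dist_comm x z] at h1
    linarith [h.1, h.2]
  rcases key p a b hab with h1 | h1
  · have h2 := ha h1
    rcases key p b c hbc with h3 | h3
    · have h4 := hb h3
      rcases key q a b hab with h5 | h5 <;> linarith
    · have h4 := hc h3
      rcases key q a c hac with h5 | h5 <;> linarith
  · have h2 := hb h1
    rcases key p a c hac with h3 | h3
    · have h4 := ha h3
      rcases key q a b hab with h5 | h5 <;> linarith
    · have h4 := hc h3
      rcases key q b c hbc with h5 | h5 <;> linarith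

/-- every element of the group lies near a ray to a boundary point -/
theorem direction (hyp : HypD G d δ) {φ : (ℕ → G) → Sph} (hφ : Bd d φ)
    (hCI : ∀ g x, CI d x → CI d (fun i => g * x i)) :
    ∃ C : ℝ, ∀ v : G, ∃ r : ℕ → G, CI d r ∧ ∀ᶠ j in atTop, d 1 v - C ≤ gp d 1 (r j) v := by
  obtain ⟨p, q, -, hpq, -, -⟩ := three
  obtain ⟨a, ha, rfl⟩ := hφ.surj p
  obtain ⟨b, hb, rfl⟩ := hφ.surj q
  obtain ⟨K, hK⟩ := gp_bound hyp hφ 1 one_pos
  obtain ⟨M, hM⟩ := hK a b ha hb hpq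
  refine ⟨K + δ, fun v => ?_⟩
  by_cases hc : ∀ i, M ≤ i → gp d v (v * a i) 1 ≤ K + δ
  · refine ⟨fun i => v * a i, hCI v a ha, ?_⟩
    filter_upwards [eventually_ge_atTop M] with j hj
    have h1 := gp_add hyp v (v * a j)
    have h2 := hc j hj
    linarith
  · push Not at hc
    obtain ⟨i0, hi0, h0⟩ := hc
    refine ⟨fun i => v * b i, hCI v b hb, ?_⟩
    filter_upwards [eventually_ge_atTop M] with j hj
    have h1 := gp_add hyp v (v * b j)
    have h2 := hyp.hyp v (v * a i0) 1 (v * b j)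
    have h3 := hM i0 j hi0 hj
    have h4 : gp d v (v * a i0) (v * b j) = gp d 1 (a i0) (b j) := by
      have := gp_left hyp v 1 (a i0) (b j)
      rwa [mul_one] at this
    rw [h4, gp_symm v 1 (v * b j) hyp] at h2
    have h5 : gp d v (v * b j) 1 ≤ K + δ := by
      by_contra hcon
      push Not at hcon
      have := lt_min h0 hcon
      linarith
    linarith

end

theorem t_LINK (hC : S_CHAIN) : S_LINK := by
  intro G _ d δ φ τ hyp hφ hτ κ L
  have hCI := (Pool.Agent.Y37.CM.t_ACTC G d δ φ τ hyp hφ hτ).1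
  have hδ := hyp.nonneg
  obtain ⟨C, hdir⟩ := direction hyp hφ hCI
  obtain ⟨η0, hη0, hn0⟩ := near_of_dist hyp hφ (κ + 2 * δ + 1)
  have hη1 : 0 < min η0 (1 / 10) := lt_min hη0 (by norm_num)
  obtain ⟨η2, hη2, hchain⟩ := hC (min η0 (1 / 10)) hη1
  obtain ⟨K, hK⟩ := gp_bound hyp hφ η2 hη2
  set R0 : ℝ := max (κ + 2 * δ + 1 + C) (K + C + δ) with hR0
  set κ2 : ℝ := max (K + δ) R0 with hκ2
  obtain ⟨η, hη, hn⟩ := near_of_dist hyp hφ (L + 2 * κ2)
  obtain ⟨s, hs⟩ := hchain η hη
  refine ⟨s + 1, fun w x y hx hy hwx hwy => ?_⟩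
  -- translation
  have hx' := hCI w⁻¹ x hx
  have hy' := hCI w⁻¹ y hy
  have htr : ∀ z : G, gp d 1 (w⁻¹ * z) w⁻¹ = gp d w z 1 := by
    intro z
    have := gp_left hyp w⁻¹ w z 1
    rwa [inv_mul_cancel, mul_one] at this
  -- the point `r`
  have hr : ∃ r : Sph, min η0 (1 / 10) ≤ dist (φ fun i => w⁻¹ * x i) r ∧
      min η0 (1 / 10) ≤ dist (φ fun i => w⁻¹ * y i) r ∧
      ∀ u : ℕ → G, CI d u → η2 ≤ dist (φ u) r → ∀ᶠ i in atTop, gp d 1 (u i) w⁻¹ ≤ κ2 := by
    by_cases hR : R0 < d 1 w⁻¹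
    · have hR1 : κ + 2 * δ + 1 + C < d 1 w⁻¹ := lt_of_le_of_lt (le_max_left _ _) hR
      have hR2 : K + C + δ < d 1 w⁻¹ := lt_of_le_of_lt (le_max_right _ _) hR
      obtain ⟨r, hrc, hr⟩ := hdir w⁻¹
      have hfar : ∀ x : ℕ → G, CI d x → (∀ᶠ i in atTop, gp d w (x i) 1 ≤ κ) →
          min η0 (1 / 10) ≤ dist (φ fun i => w⁻¹ * x i) (φ r) := by
        intro x hx hwx
        by_contra hcon
        push Not at hcon
        obtain ⟨M, hM⟩ := hn0 _ r (hCI w⁻¹ x hx) hrc (lt_of_lt_of_le hcon (min_le_left _ _))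
        obtain ⟨j, hj1, hj2, hj3⟩ := (hwx.and (hr.and (eventually_ge_atTop M))).exists
        have h1 := hM j j hj3 hj3
        have h2 := hyp.hyp 1 (w⁻¹ * x j) (r j) w⁻¹
        rw [htr] at h2
        have h3 : κ + 2 * δ + 1 ≤ min (gp d 1 (w⁻¹ * x j) (r j)) (gp d 1 (r j) w⁻¹) :=
          le_min h1 (by linarith)
        linarith
      refine ⟨φ r, hfar x hx hwx, hfar y hy hwy, fun u hu hur => ?_⟩
      obtain ⟨M, hM⟩ := hK u r hu hrc hur
      filter_upwards [hr, eventually_ge_atTop M] with i hi1 hi2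
      have h1 := hM i i hi2 hi2
      have h2 := hyp.hyp 1 (u i) w⁻¹ (r i)
      rw [gp_symm 1 w⁻¹ (r i) hyp] at h2
      refine le_trans ?_ (le_max_left _ _)
      by_contra hcon
      push Not at hcon
      have h3 : K + δ < min (gp d 1 (u i) w⁻¹) (gp d 1 (r i) w⁻¹) := lt_min hcon (by linarith)
      linarith
    · push Not at hR
      obtain ⟨r, h1, h2⟩ := far (φ fun i => w⁻¹ * x i) (φ fun i => w⁻¹ * y i)
      exact ⟨r, (min_le_right _ _).trans h1, (min_le_right _ _).trans h2, fun u _ _ =>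
        Eventually.of_forall fun i => ((gp_le hyp _ _).trans hR).trans (le_max_right _ _)⟩
  obtain ⟨r, hr1, hr2, hr3⟩ := hr
  obtain ⟨z, hz0, hzs, hzr, hzd⟩ := hs r _ _ hr1 hr2
  -- representatives
  choose V hV hVφ using hφ.surj
  set u : ℕ → ℕ → G := fun t => if t = 0 then (fun i => w⁻¹ * x i) else
    if t = s + 1 then (fun i => w⁻¹ * y i) else V (z (min t s)) with hu
  have hu0 : u 0 = fun i => w⁻¹ * x i := by simp [hu]
  have hus : u (s + 1) = fun i => w⁻¹ * y i := by simp [hu]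
  have huc : ∀ t, CI d (u t) := by
    intro t
    simp only [hu]
    split_ifs
    · exact hx'
    · exact hy'
    · exact hV _
  have huφ : ∀ t, φ (u t) = z (min t s) := by
    intro t
    simp only [hu]
    split_ifs with h1 h2
    · rw [h1, Nat.zero_min, hz0]
    · rw [h2, Nat.min_eq_right (Nat.le_succ s), hzs]
    · exact hVφ _
  have hud : ∀ t, dist (φ (u t)) (φ (u (t + 1))) < η := by
    intro t
    rw [huφ, huφ]
    rcases lt_or_ge t s with h | h
    · rw [Nat.min_eq_left h.le, Nat.min_eq_left h]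
      exact hzd t h
    · rw [Nat.min_eq_right h, Nat.min_eq_right (h.trans (Nat.le_succ t)), dist_self]
      exact hη
  have hug : ∀ t, ∀ᶠ i in atTop, gp d 1 (u t i) w⁻¹ ≤ κ2 := by
    intro t
    refine hr3 (u t) (huc t) ?_
    rw [huφ]
    exact hzr _
  refine ⟨fun t i => w * u t i, ?_, ?_, fun t => hCI w (u t) (huc t), fun t _ => ?_⟩
  · funext i
    simp only [hu0]
    exact mul_inv_cancel_left w (x i)
  · funext i
    simp only [hus]
    exact mul_inv_cancel_left w (y i)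
  · obtain ⟨M, hM⟩ := hn (u t) (u (t + 1)) (huc t) (huc (t + 1)) (hud t)
    obtain ⟨M1, h1⟩ := eventually_atTop.1 (hug t)
    obtain ⟨M2, h2⟩ := eventually_atTop.1 (hug (t + 1))
    refine ⟨max M (max M1 M2), fun i j hi hj => ?_⟩
    have g0 := hM i j ((le_max_left _ _).trans hi) ((le_max_left _ _).trans hj)
    have g1 := h1 i (((le_max_left _ _).trans (le_max_right _ _)).trans hi)
    have g2 := h2 j (((le_max_right _ _).trans (le_max_right _ _)).trans hj)
    have e0 := gp_base w (w * u t i) (w * u (t + 1) j) hyp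
    have e1 : gp d w (w * u t i) (w * u (t + 1) j) = gp d 1 (u t i) (u (t + 1) j) := by
      have := gp_left hyp w 1 (u t i) (u (t + 1) j)
      rwa [mul_one] at this
    have e2 : ∀ g : G, gp d w (w * g) 1 = gp d 1 g w⁻¹ := by
      intro g
      have := gp_left hyp w 1 g w⁻¹
      rwa [mul_one, mul_inv_cancel] at this
    rw [e1, e2, e2] at e0
    change d 1 w + L ≤ gp d 1 (w * u t i) (w * u (t + 1) j)
    rw [e0]
    linarith

end Pool.Agent.Z932.ST
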